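import Pool.Agent.Q192.SH.Asm
import Pool.Agent.Q192.SH.Link
import Pool.Agent.Q192.SH.Transport
import Pool.Agent.Q192.SH.TaskAct
import Pool.Agent.Q192.SH.TaskAdj
import Pool.Agent.Q192.SH.TaskAdjSpec
import Pool.Agent.Q192.SH.AllB
import Pool.Agent.Q192.SH.TaskApprox
import Pool.Agent.Q192.SH.TaskBad
import Pool.Agent.Q192.SH.TaskCoer
import Pool.Agent.Q192.SH.TaskCompact
import Pool.Agent.Q192.SH.TaskComplete
import Pool.Agent.Q192.SH.TaskDisc
import Pool.Agent.Q192.SH.TaskFourier
import Pool.Agent.Q192.SH.TaskGraded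
import Pool.Agent.Q192.SH.TaskHom
import Pool.Agent.Q192.SH.TaskHull
import Pool.Agent.Q192.SH.TaskInterval
import Pool.Agent.Q192.SH.TaskInv
import Pool.Agent.Q192.SH.TaskNorm
import Pool.Agent.Q192.SH.TaskNum
import Pool.Agent.Q192.SH.TaskNumFin
import Pool.Agent.Q192.SH.TaskOdd
import Pool.Agent.Q192.SH.TaskOp
import Pool.Agent.Q192.SH.TaskProj
import Pool.Agent.Q192.SH.TaskSpec
import Pool.Agent.Q192.SH.TaskSymBd
import Pool.Agent.Q192.SH.TaskUniq
import Pool.Agent.Q192.SH.TaskVecInt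
import Pool.Agent.Q192.SH.TaskVecSym
import Pool.Agent.Q192.SH.TaskVecVal

/-!
# Norm and spectrum of symmetrized tensor products of powers of the shift and of its adjoint

For nonzero integers `k 0, …, k (n-1)` let `A_j = S^(k j)` if `k j > 0` and `A_j = (S^*)^(-k j)` if
`k j < 0`. The average of the operators `A_(π 0) ⊗ … ⊗ A_(π (n-1))` over all permutations `π`,
restricted to the symmetric tensors (`χ = 1`) or to the antisymmetric tensors
(`χ = Equiv.Perm.sign`), has norm one; its spectrum is the closed unit disc if the sum of the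
exponents is not zero; its spectrum always contains the range of the symbol `phi k` and is contained
in the convex hull of this range; and for a symmetric family of exponents the spectrum is the range
of the symbol, an interval `[a, 1]` with `-1 ≤ a ≤ 0`, and `a = -1` if the exponents are divisible by
the same power of two.
-/

namespace Pool.Agent.Results.MP_0b6044_an.ShiftTensors

open Pool.Agent.Q192.SH

theorem result (n : ℕ) (hn : 1 ≤ n) (k : Fin n → ℤ) (hk : ∀ j, k j ≠ 0)
    (χ : Equiv.Perm (Fin n) →* ℤˣ) :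
    (∀ (u : Fin n → ℕ → ℂ) (i : Fin n → ℕ),
      act k (fun i => ∏ j, u j (i j)) i = ∏ j, factor (k j) (u j) (i j)) ∧
    (∃ (E : Type) (_ : NormedAddCommGroup E) (_ : InnerProductSpace ℂ E) (_ : CompleteSpace E)
      (J : E →ₗ[ℂ] ((Fin n → ℕ) → ℂ)), IsTensorSpace χ E J) ∧
    ∀ (E : Type) [NormedAddCommGroup E] [NormedSpace ℂ E] (J : E →ₗ[ℂ] ((Fin n → ℕ) → ℂ)),
      IsTensorSpace χ E J →
      ∃ B : E →L[ℂ] E, ((∀ x i, J (B x) i = symAct k (J x) i) ∧
          ∀ B' : E →L[ℂ] E, (∀ x i, J (B' x) i = symAct k (J x) i) → B' = B) ∧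
        ‖B‖ = 1 ∧
        (∑ j, k j ≠ 0 → spectrum ℂ B = Metric.closedBall 0 1) ∧
        (Set.range (phi k) ⊆ spectrum ℂ B ∧ spectrum ℂ B ⊆ convexHull ℝ (Set.range (phi k))) ∧
        ((∃ π : Equiv.Perm (Fin n), ∀ j, k (π j) = - k j) →
          spectrum ℂ B = Set.range (phi k) ∧
          (∃ a : ℝ, -1 ≤ a ∧ a ≤ 0 ∧ spectrum ℂ B = Complex.ofReal '' Set.Icc a 1) ∧
          (∀ v : ℕ, (∀ j, ∃ o : ℤ, Odd o ∧ k j = 2 ^ v * o) →
            spectrum ℂ B = Complex.ofReal '' Set.Icc (-1) 1)) := by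
  refine ⟨fun u i => act_prod k u i, ?_, ?_⟩
  · exact ⟨V n χ, inferInstance, inferInstance, taskComplete n χ, JV n χ, isTensorSpace_V n χ⟩
  intro E _ _ J hJ
  obtain ⟨B, ⟨hB, -⟩, h1, h2, h3, h4⟩ :=
    assemble (TaskOpPf.main TaskActPf.main TaskInvPf.main) TaskUniqPf.main taskComplete
      (TaskApproxPf.main TaskVecSymPf.main TaskVecValPf.main TVecInt.main TaskSymBdPf.main
        TaskBadPf.main)
      TaskSpecPf.main TaskNormPf.main (TaskDiscPf.main TaskHomPf.main AllB.main)
      (TaskGraded.main TaskProj.main) TaskAdjPf.main TaskAdjSpecPf.main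
      (TaskNumPf.main (TaskNumFin.main TaskFourierPf.main)) TaskCompactPf.main
      (TaskHull.main TaskCoerPf.main) TaskIntervalPf.main TaskOddPf.main n hn k hk χ
  obtain ⟨U, hU⟩ := exists_equiv χ E J hJ
  have hinj : ∀ x y : E, J x = J y → x = y := by
    intro x y hxy
    apply U.injective
    apply Subtype.ext
    apply Subtype.ext
    funext i
    show ((U x).1 : (Fin n → ℕ) → ℂ) i = ((U y).1 : (Fin n → ℕ) → ℂ) i
    rw [hU, hU, hxy]
  let C : E →L[ℂ] E := (U.symm.toContinuousLinearEquiv : V n χ →L[ℂ] E) ∘L B ∘L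
    (U.toContinuousLinearEquiv : E →L[ℂ] V n χ)
  have hC : ∀ x, C x = U.symm (B (U x)) := fun x => rfl
  have hUC : ∀ x, U (C x) = B (U x) := fun x => by rw [hC, U.apply_symm_apply]
  have hJC : ∀ x i, J (C x) i = symAct k (J x) i := by
    intro x i
    rw [← hU (C x) i, hUC]
    have h5 := hB (U x) i
    rw [h5]
    congr 1
    funext i'
    exact hU x i'
  have hspec : spectrum ℂ C = spectrum ℂ B :=
    spec_conj U.toContinuousLinearEquiv B C (fun x => hUC x)
  have hnorm : ‖C‖ = 1 := by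
    apply le_antisymm
    · refine ContinuousLinearMap.opNorm_le_bound _ zero_le_one fun x => ?_
      rw [hC, U.symm.norm_map]
      refine (B.le_opNorm _).trans ?_
      rw [U.norm_map, h1]
    · have h8 : ‖B‖ ≤ ‖C‖ := by
        refine ContinuousLinearMap.opNorm_le_bound B (norm_nonneg C) fun y => ?_
        have h6 : B y = U (C (U.symm y)) := by rw [hUC, U.apply_symm_apply]
        rw [h6, U.norm_map]
        refine (C.le_opNorm _).trans ?_
        rw [U.symm.norm_map]
      rw [h1] at h8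
      exact h8
  refine ⟨C, ⟨hJC, fun B' hB' => ?_⟩, hnorm, ?_⟩
  · ext x
    apply hinj
    funext i
    rw [hB', hJC]
  · rw [hspec]
    exact ⟨h2, h3, h4⟩

end Pool.Agent.Results.MP_0b6044_an.ShiftTensors
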